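import Pool.Agent.TH847.BT.One
import Pool.Agent.H617R3.BT.Defs

/-! The primes of one residue class in an interval. -/

set_option autoImplicit false

namespace Pool.Agent.TH847.BT
open Finset Filter Pool.Agent.W301.SS Pool.Agent.TH847.LM

lemma PS_mono {x y x' y' : ℝ} {k l : ℕ} (h1 : x ≤ x') (h2 : x' - y' ≤ x - y ∨ x' - y' ≤ 0) :
    (PS x y k l).ncard ≤ (PS x' y' k l).ncard := by
  apply Set.ncard_le_ncard _ (PS_fin _ _ _ _)
  rintro p ⟨a, b, c, d⟩
  refine ⟨a, b, ?_, d.trans h1⟩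
  rcases h2 with h2 | h2
  · linarith
  · have : (0 : ℝ) < p := by exact_mod_cast a.pos
    linarith

lemma PS_cnt (x y : ℝ) (k l : ℕ) :
    (PS x y k l).ncard = Pool.Agent.H617R3.BT.cnt x y k (l : ℤ) := by
  unfold Pool.Agent.H617R3.BT.cnt PS
  congr 1
  ext p
  simp only [Set.mem_ofPred_eq]
  rw [Int.natCast_modEq_iff]
  tauto

end Pool.Agent.TH847.BT
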