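import Pool.Agent.TH847.BT.One2
import Pool.Agent.TH847.BT.Uni

/-! Primes in almost all classes of a modulus, all intervals, level of the length. -/

set_option autoImplicit false

namespace Pool.Agent.TH847.BT
open Finset Filter Pool.Agent.W301.SS Pool.Agent.TH847.LM

/-- the long intervals -/
lemma long' (ε : ℝ) (hε : 0 < ε) : ∀ᶠ k : ℕ in atTop, ∀ (l : ℕ) (x y : ℝ), (k : ℝ) ^ 2 ≤ y →
    ((PS x y k l).ncard : ℝ) ≤ (4 + ε) * y / (Nat.totient k * Real.log y) := by
  obtain ⟨Z, hZ3, hZ⟩ := Pool.Agent.H617R3.BT.bt (ε / 2) (by positivity)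
  filter_upwards [tendsto_natCast_atTop_atTop.eventually (eventually_ge_atTop Z), ev_L 1,
    eventually_ge_atTop 2] with k h1 hL hk l x y hy
  have hkr : (2 : ℝ) ≤ k := by exact_mod_cast hk
  have hk0 : (0 : ℝ) < k := by linarith
  have hφ0 : (0 : ℝ) < Nat.totient k := by exact_mod_cast Nat.totient_pos.2 (by omega)
  have hzk : (k : ℝ) ≤ y / k := by
    rw [le_div_iff₀ hk0, ← sq]
    exact hy
  have hy0 : 0 < y := by
    have : 0 < (k : ℝ) ^ 2 := by positivity
    linarith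
  have hlog1 := Real.log_le_log (by positivity) hy
  rw [Real.log_pow] at hlog1
  push_cast at hlog1
  have hlog : Real.log y / 2 ≤ Real.log (y / k) := by
    rw [Real.log_div hy0.ne' hk0.ne']
    linarith
  have hly : 0 < Real.log y := by linarith
  have h := hZ k (l : ℤ) x y (by omega) (h1.trans hzk)
  rw [PS_cnt]
  refine h.trans ?_
  calc (2 + ε / 2) * y / (Nat.totient k * Real.log (y / k)) ≤
        (2 + ε / 2) * y / (Nat.totient k * (Real.log y / 2)) := by
        gcongr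
    _ = _ := by field_simp; ring

theorem uniG (ε : ℝ) (hε : 0 < ε) (hε1 : ε ≤ 1) : ∀ᶠ k : ℕ in atTop, ∀ W : ℝ, 2 ≤ W →
    W ≤ (k : ℝ) ^ (ε / 3200) → ∀ x₀ : ℝ, ∃ E : Finset ℕ, E ⊆ range k ∧ (E.card : ℝ) ≤ k / W ∧
      ∀ l < k, l ∉ E → ∀ x y : ℝ, k * (W * Real.log k) ^ 60 ≤ y → y ≤ x → |x - x₀| ≤ W * y →
        ((PS x y k l).ncard : ℝ) ≤ (4 + ε) * y / (Nat.totient k * Real.log y) := by
  classical
  obtain ⟨η, hη⟩ : ∃ η : ℝ, η = ε / 100 := ⟨_, rfl⟩
  have hη0 : 0 < η := by rw [hη]; positivity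
  have hη1 : η ≤ 1 / 100 := by rw [hη]; linarith
  filter_upwards [one' (ε / 4) (by positivity) (by linarith), long' ε hε, ev_L (24 / η ^ 2 + 1 / η + 1),
    ev_log 2 1 (ε / 1600) (by positivity), eventually_ge_atTop 3]
    with k hone hlong hL1 hlog2 hk3 W hW hWk x₀
  have hkr : (3 : ℝ) ≤ k := by exact_mod_cast hk3
  have hkr0 : (0 : ℝ) < k := by linarith
  have hφ0 : (0 : ℝ) < Nat.totient k := by exact_mod_cast Nat.totient_pos.2 (by omega)
  obtain ⟨L, hL⟩ : ∃ L : ℝ, L = Real.log k := ⟨_, rfl⟩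
  rw [← hL] at hone hL1 hlog2 ⊢
  have hηa : 0 < 24 / η ^ 2 := by positivity
  have hηb : 0 < 1 / η := by positivity
  have hL8 : 24 / η ^ 2 ≤ L := by linarith
  have hLη : 1 / η ≤ L := by linarith
  have hL1' : 1 ≤ L := by linarith
  have hL0 : 0 < L := by linarith
  have hW0 : 0 < W := by linarith
  have hW1 : 1 ≤ W := by linarith
  obtain ⟨W', hW'⟩ : ∃ W' : ℝ, W' = (W * L) ^ 2 := ⟨_, rfl⟩
  have hWL1 : 1 ≤ W * L := m2 hW1 hL1'
  have hWW' : W ≤ W' := by
    rw [hW']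
    calc W ≤ W * L := m3 hL1' hW0.le
      _ ≤ (W * L) ^ 2 := by rw [sq]; exact m1 hWL1 (by positivity)
  have hW'0 : 0 < W' := by linarith
  have hW'k : W' ≤ (k : ℝ) ^ (ε / 4 / 200) := by
    have h1 : W ^ 2 ≤ (k : ℝ) ^ (ε / 1600) := by
      calc W ^ 2 ≤ ((k : ℝ) ^ (ε / 3200)) ^ 2 := pow_le_pow_left₀ hW0.le hWk 2
        _ = _ := by
          rw [← Real.rpow_natCast, ← Real.rpow_mul hkr0.le]
          congr 1; push_cast; ring
    calc W' = W ^ 2 * (1 * L ^ 2) := by rw [hW']; ring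
      _ ≤ (k : ℝ) ^ (ε / 1600) * (k : ℝ) ^ (ε / 1600) := by gcongr
      _ = _ := by rw [← Real.rpow_add hkr0]; congr 1; ring
  obtain ⟨y0, hy0⟩ : ∃ y0 : ℝ, y0 = k * (W' * L) ^ 20 := ⟨_, rfl⟩
  have hy0k : (k : ℝ) ≤ y0 := by
    have : (1 : ℝ) ≤ (W' * L) ^ 20 := one_le_pow₀ (m2 (by linarith) hL1')
    rw [hy0]; exact m3 this hkr0.le
  have hy00 : 0 < y0 := by linarith
  have hy0B : y0 ≤ k * (W * L) ^ 60 := by
    rw [hy0, hW']
    apply mul_le_mul_of_nonneg_left _ hkr0.le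
    have e1 : ((W * L) ^ 2 * L) ^ 20 = (W * L) ^ 40 * L ^ 20 := by ring
    have e2 : (W * L) ^ 60 = (W * L) ^ 40 * (W * L) ^ 20 := by ring
    rw [e1, e2]
    apply mul_le_mul_of_nonneg_left _ (by positivity)
    exact pow_le_pow_left₀ hL0.le (m1 hW1 hL0.le) 20
  -- the net
  let Y : ℕ → ℝ := fun i => y0 * (1 + η) ^ i
  obtain ⟨n3, hn3⟩ : ∃ n3 : ℕ, n3 = ⌊2 * W / η⌋₊ + 1 := ⟨_, rfl⟩
  let X : ℕ × ℕ → ℝ := fun s => x₀ + ((s.2 : ℝ) - n3) * (η * Y s.1)
  let Y' : ℕ × ℕ → ℝ := fun s => min ((1 + 2 * η) * Y s.1) (X s)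
  let Bd : ℕ × ℕ → Finset ℕ := fun s => (range k).filter (fun a =>
    (4 + ε / 4) * Y' s / (Nat.totient k * Real.log (Y' s)) < ((PS (X s) (Y' s) k a).ncard : ℝ))
  obtain ⟨n1, hn1⟩ : ∃ n1 : ℕ, n1 = ⌊2 * L / η⌋₊ + 1 := ⟨_, rfl⟩
  obtain ⟨n2, hn2⟩ : ∃ n2 : ℕ, n2 = 2 * n3 + 1 := ⟨_, rfl⟩
  let T : Finset (ℕ × ℕ) := (range n1 ×ˢ range n2).filter (fun s => y0 ≤ Y' s ∧ Y' s ≤ (k : ℝ) ^ 3)
  have hYpos : ∀ i, 0 < Y i := fun i => by simp only [Y]; positivity
  have hYge : ∀ i, y0 ≤ Y i := fun i => by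
    simp only [Y]
    have : (1 : ℝ) ≤ (1 + η) ^ i := one_le_pow₀ (by linarith)
    exact m3 this hy00.le
  refine ⟨T.biUnion Bd, ?_, ?_, ?_⟩
  · intro a ha
    rw [mem_biUnion] at ha
    obtain ⟨s, _, hs⟩ := ha
    exact (mem_filter.1 hs).1
  · have h1 : ((T.biUnion Bd).card : ℝ) ≤ T.card * (k / W') := by
      have h2 : ((T.biUnion Bd).card : ℝ) ≤ ∑ s ∈ T, ((Bd s).card : ℝ) := by
        exact_mod_cast card_biUnion_le
      refine h2.trans ?_
      rw [← nsmul_eq_mul, ← sum_const]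
      apply sum_le_sum
      intro s hs
      rw [mem_filter] at hs
      exact hone W' (by linarith) hW'k (X s) (Y' s) (by rw [← hy0]; exact hs.2.1) hs.2.2 (min_le_right _ _)
    have h2 : (T.card : ℝ) ≤ W' / W := by
      have h3 : T.card ≤ n1 * n2 := by
        refine (card_filter_le _ _).trans (le_of_eq ?_)
        rw [card_product, card_range, card_range]
      have h4 : (T.card : ℝ) ≤ n1 * n2 := by exact_mod_cast h3
      have h5 : (n1 : ℝ) ≤ 3 * (L / η) := by
        have a1 : (⌊2 * L / η⌋₊ : ℝ) ≤ 2 * L / η := Nat.floor_le (by positivity)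
        have a2 : 1 ≤ L / η := by rw [le_div_iff₀ hη0]; linarith
        have a3 : 2 * L / η = 2 * (L / η) := by ring
        rw [hn1]; push_cast; linarith
      have h6 : (n2 : ℝ) ≤ 8 * (W / η) := by
        have a1 : (⌊2 * W / η⌋₊ : ℝ) ≤ 2 * W / η := Nat.floor_le (by positivity)
        have a2 : 1 ≤ W / η := by rw [le_div_iff₀ hη0]; linarith
        have a3 : 2 * W / η = 2 * (W / η) := by ring
        rw [hn2, hn3]; push_cast; linarith
      calc (T.card : ℝ) ≤ n1 * n2 := h4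
        _ ≤ (3 * (L / η)) * (8 * (W / η)) := mul_le_mul h5 h6 (Nat.cast_nonneg _) (by positivity)
        _ = (24 / η ^ 2) * (L * W) := by field_simp; ring
        _ ≤ L * (L * W) := mul_le_mul_of_nonneg_right hL8 (by positivity)
        _ = W' / W := by rw [hW']; field_simp
    calc ((T.biUnion Bd).card : ℝ) ≤ T.card * (k / W') := h1
      _ ≤ W' / W * (k / W') := mul_le_mul_of_nonneg_right h2 (by positivity)
      _ = k / W := by field_simp
  · intro l hlk hlE x y hy hyx hxW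
    rcases le_or_gt ((k : ℝ) ^ 2) y with hbig | hsmall
    · exact hlong l x y hbig
    have hyy0 : y0 ≤ y := hy0B.trans hy
    have hyp : 0 < y := by linarith
    have hq1 : 1 ≤ y / y0 := by rw [le_div_iff₀ hy00]; linarith
    obtain ⟨i, hi1, hi2⟩ := exists_nat_pow_near hq1 (by linarith : (1 : ℝ) < 1 + η)
    rw [le_div_iff₀ hy00] at hi1
    rw [div_lt_iff₀ hy00] at hi2
    have hYi1 : Y i ≤ y := by simp only [Y]; linarith
    have hYi2 : y < (1 + η) * Y i := by
      simp only [Y]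
      rw [pow_succ] at hi2
      linarith
    have hYi0 := hYpos i
    -- the index i
    have hin : i < n1 := by
      have h1 : (1 + η) ^ i ≤ (k : ℝ) := by
        have h3 : (1 + η) ^ i * k ≤ (1 + η) ^ i * y0 := mul_le_mul_of_nonneg_left hy0k (by positivity)
        have h2 : (1 + η) ^ i * k ≤ (k : ℝ) * k := by
          rw [← sq]
          exact (h3.trans hi1).trans hsmall.le
        exact le_of_mul_le_mul_right h2 hkr0
      have h2 := Real.log_le_log (by positivity) h1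
      rw [Real.log_pow, ← hL] at h2
      have h3 : η / 2 ≤ Real.log (1 + η) := by
        have h4 := Real.one_sub_inv_le_log_of_pos (show (0 : ℝ) < 1 + η by linarith)
        refine le_trans ?_ h4
        have h5 : 1 - (1 + η)⁻¹ = η / (1 + η) := by field_simp; ring
        rw [h5]
        apply div_le_div_of_nonneg_left hη0.le (by linarith) (by linarith)
      have h4 : (i : ℝ) * (η / 2) ≤ L := (mul_le_mul_of_nonneg_left h3 (Nat.cast_nonneg _)).trans h2
      have h5 : (i : ℝ) ≤ 2 * L / η := by rw [le_div_iff₀ hη0]; linarith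
      have h6 : i ≤ ⌊2 * L / η⌋₊ := Nat.le_floor h5
      omega
    -- the index j
    have hηY : 0 < η * Y i := by positivity
    have hn3r : 2 * W / η < n3 := by
      have := Nat.lt_floor_add_one (2 * W / η)
      rw [hn3]
      push_cast
      exact this
    have hxx : |x - x₀| ≤ 2 * W * Y i := by
      have : W * y ≤ W * ((1 + η) * Y i) := mul_le_mul_of_nonneg_left hYi2.le hW0.le
      exact (hxW.trans this).trans (m5 hW0.le hYi0.le (by linarith))
    have hdiv : |(x - x₀) / (η * Y i)| ≤ 2 * W / η := by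
      rw [abs_div, abs_of_pos hηY, div_le_div_iff₀ hηY hη0]
      calc |x - x₀| * η ≤ (2 * W * Y i) * η := mul_le_mul_of_nonneg_right hxx hη0.le
        _ = _ := by ring
    have hdiv2 := abs_le.1 hdiv
    have hnn : 0 ≤ (x - x₀) / (η * Y i) + n3 := by linarith
    obtain ⟨j, hj⟩ : ∃ j : ℕ, j = ⌈(x - x₀) / (η * Y i) + n3⌉₊ := ⟨_, rfl⟩
    have hj1 : (x - x₀) / (η * Y i) + n3 ≤ j := by rw [hj]; exact Nat.le_ceil _
    have hj2 : (j : ℝ) < (x - x₀) / (η * Y i) + n3 + 1 := by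
      rw [hj]; exact Nat.ceil_lt_add_one hnn
    have hX1 : x ≤ X (i, j) := by
      have h1 : (x - x₀) / (η * Y i) ≤ (j : ℝ) - n3 := by linarith
      rw [div_le_iff₀ hηY] at h1
      have h2 : X (i, j) = x₀ + ((j : ℝ) - n3) * (η * Y i) := rfl
      rw [h2]
      linarith
    have hX2 : X (i, j) ≤ x + η * Y i := by
      have h0 : (j : ℝ) - n3 ≤ (x - x₀) / (η * Y i) + 1 := by linarith
      have h1 : ((j : ℝ) - n3) * (η * Y i) ≤ ((x - x₀) / (η * Y i) + 1) * (η * Y i) :=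
        mul_le_mul_of_nonneg_right h0 hηY.le
      have h2 : ((x - x₀) / (η * Y i) + 1) * (η * Y i) = x - x₀ + η * Y i := by field_simp
      rw [h2] at h1
      have h3 : X (i, j) = x₀ + ((j : ℝ) - n3) * (η * Y i) := rfl
      rw [h3]
      linarith
    have hjn : j < n2 := by
      have h2 : (j : ℝ) < ((2 * n3 + 1 : ℕ) : ℝ) := by
        push_cast
        linarith
      rw [hn2]
      exact_mod_cast h2
    have hY'y0 : y0 ≤ Y' (i, j) := by
      apply le_min
      · have := hYge i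
        have h1 : Y i ≤ (1 + 2 * η) * Y i := m1 (by linarith) hYi0.le
        exact this.trans h1
      · linarith
    have hY'le : Y' (i, j) ≤ (1 + 2 * η) * Y i := min_le_left _ _
    have hY'k : Y' (i, j) ≤ (k : ℝ) ^ 3 := by
      have h1 : (1 + 2 * η) * Y i ≤ 2 * y := by
        have h3 : (1 + 2 * η) * Y i ≤ 2 * Y i := mul_le_mul_of_nonneg_right (by linarith) hYi0.le
        linarith
      have h2 : (2 : ℝ) * (k : ℝ) ^ 2 ≤ (k : ℝ) ^ 3 := by
        have : (0 : ℝ) ≤ (k : ℝ) ^ 2 := by positivity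
        calc (2 : ℝ) * (k : ℝ) ^ 2 ≤ k * (k : ℝ) ^ 2 := mul_le_mul_of_nonneg_right (by linarith) this
          _ = _ := by ring
      linarith
    have hyY' : y ≤ Y' (i, j) := by
      apply le_min
      · exact hYi2.le.trans (mul_le_mul_of_nonneg_right (by linarith) hYi0.le)
      · linarith
    have hmem : (i, j) ∈ T := by
      rw [mem_filter, mem_product, mem_range, mem_range]
      exact ⟨⟨hin, hjn⟩, hY'y0, hY'k⟩
    have hnot : l ∉ Bd (i, j) := fun h => hlE (mem_biUnion.2 ⟨_, hmem, h⟩)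
    have hle : ((PS (X (i, j)) (Y' (i, j)) k l).ncard : ℝ) ≤ (4 + ε / 4) * Y' (i, j) / (Nat.totient k * Real.log (Y' (i, j))) := by
      by_contra hc
      exact hnot (mem_filter.2 ⟨mem_range.2 hlk, not_le.1 hc⟩)
    have hmono : ((PS x y k l).ncard : ℝ) ≤ ((PS (X (i, j)) (Y' (i, j)) k l).ncard : ℝ) := by
      have : (PS x y k l).ncard ≤ (PS (X (i, j)) (Y' (i, j)) k l).ncard := by
        apply PS_mono hX1
        rcases le_total ((1 + 2 * η) * Y i) (X (i, j)) with h | h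
        · left
          have e : Y' (i, j) = (1 + 2 * η) * Y i := min_eq_left h
          rw [e]
          linarith
        · right
          have e : Y' (i, j) = X (i, j) := min_eq_right h
          rw [e, sub_self]
      exact_mod_cast this
    refine (hmono.trans hle).trans ?_
    have hy1 : 1 < y := by linarith
    have hly : 0 < Real.log y := Real.log_pos hy1
    have hlY : Real.log y ≤ Real.log (Y' (i, j)) := Real.log_le_log hyp hyY'
    have hY'0 : 0 < Y' (i, j) := by linarith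
    have h1 : (4 + ε / 4) * (1 + 2 * η) ≤ 4 + ε := by rw [hη]; exact m6 hε hε1
    have h2 : (4 + ε / 4) * Y' (i, j) ≤ (4 + ε) * y := by
      calc (4 + ε / 4) * Y' (i, j) ≤ (4 + ε / 4) * ((1 + 2 * η) * Y i) :=
            mul_le_mul_of_nonneg_left hY'le (by linarith)
        _ = ((4 + ε / 4) * (1 + 2 * η)) * Y i := by ring
        _ ≤ (4 + ε) * Y i := mul_le_mul_of_nonneg_right h1 hYi0.le
        _ ≤ (4 + ε) * y := mul_le_mul_of_nonneg_left hYi1 (by linarith)
    exact div_le_div₀ (by positivity) h2 (by positivity) (mul_le_mul_of_nonneg_left hlY hφ0.le)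

theorem uni' (ε : ℝ) (hε : 0 < ε) (hε1 : ε ≤ 1) : ∀ᶠ k : ℕ in atTop, ∀ W : ℝ, 2 ≤ W →
    W ≤ (k : ℝ) ^ (ε / 3200) → ∃ E : Finset ℕ, E ⊆ range k ∧ (E.card : ℝ) ≤ k / W ∧
      ∀ l < k, l ∉ E → ∀ x y : ℝ, k * (W * Real.log k) ^ 60 ≤ y → y ≤ x → x ≤ W * y →
        ((PS x y k l).ncard : ℝ) ≤ (4 + ε) * y / (Nat.totient k * Real.log y) := by
  filter_upwards [uniG ε hε hε1, ev_L 1, eventually_ge_atTop 3] with k hk hL hk3 W hW hWk
  obtain ⟨E, h1, h2, h3⟩ := hk W hW hWk 0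
  refine ⟨E, h1, h2, fun l hl hlE x y hy hyx hxW => h3 l hl hlE x y hy hyx ?_⟩
  have hk0 : (0 : ℝ) < k := by exact_mod_cast (by omega : 0 < k)
  have hy0 : 0 ≤ y := le_trans (by positivity) hy
  rw [sub_zero, abs_of_nonneg (hy0.trans hyx)]
  exact hxW

end Pool.Agent.TH847.BT
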