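import Pool.Agent.TH847.LM.Key
import Pool.Agent.TH847.LM.Phi

/-! The primes of one residue class in an interval and Selberg's function. -/

set_option autoImplicit false

namespace Pool.Agent.TH847.BT
open Finset Filter Pool.Agent.W301.SS Pool.Agent.TH847.LM

/-- the primes `p ≡ l (mod k)` in `(x - y, x]` -/
def PS (x y : ℝ) (k l : ℕ) : Set ℕ := {p : ℕ | p.Prime ∧ p ≡ l [MOD k] ∧ x - y < p ∧ (p : ℝ) ≤ x}

lemma PS_fin (x y : ℝ) (k l : ℕ) : (PS x y k l).Finite := by
  refine (Set.finite_Iic ⌊x⌋₊).subset fun p hp => ?_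
  exact Nat.le_floor hp.2.2.2

lemma nu_prime {l : ℕ → ℝ} (hl1 : l 1 = 1) {D p : ℕ} (hD : 1 ≤ D) (hp : p.Prime) (hDp : D < p) :
    nu l D p = 1 := by
  unfold nu
  have : ∑ d ∈ Icc 1 D, (if d ∣ p then l d else 0) = 1 := by
    rw [sum_eq_single 1]
    · simp [hl1]
    · intro d hd hd1
      rw [mem_Icc] at hd
      rw [if_neg]
      intro hdvd
      rcases (Nat.dvd_prime hp).1 hdvd with h1 | h1
      · exact hd1 h1
      · omega
    · intro h1
      exact absurd (mem_Icc.2 ⟨le_rfl, hD⟩) h1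
  rw [this]; norm_num

lemma rep_unique {k p r : ℕ} (hp : p ∈ Ioc 0 k) (hr : r ∈ Ioc 0 k) (h : p ≡ r [MOD k]) : p = r := by
  rw [mem_Ioc] at hp hr
  unfold Nat.ModEq at h
  rcases Nat.lt_or_ge p k with h1 | h1
  · rw [Nat.mod_eq_of_lt h1] at h
    rcases Nat.lt_or_ge r k with h2 | h2
    · rw [Nat.mod_eq_of_lt h2] at h; exact h
    · have : r = k := by omega
      rw [this, Nat.mod_self] at h; omega
  · have hpk : p = k := by omega
    rw [hpk, Nat.mod_self] at h
    rcases Nat.lt_or_ge r k with h2 | h2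
    · rw [Nat.mod_eq_of_lt h2] at h; omega
    · omega

lemma rp_shift {k : ℕ} (hk : 0 < k) (a u : ℕ) : rp k (a + (k - 1) * u) + u ≡ a [MOD k] := by
  have h1 := (rp_modEq k (a + (k - 1) * u)).add_right u
  refine h1.trans ?_
  obtain ⟨k', rfl⟩ : ∃ k', k = k' + 1 := ⟨k - 1, by omega⟩
  have e : a + (k' + 1 - 1) * u + u = a + (k' + 1) * u := by
    rw [Nat.add_sub_cancel]; ring
  rw [e]
  unfold Nat.ModEq
  exact Nat.add_mul_mod_self_left a (k' + 1) u

lemma cnt_le {l : ℕ → ℝ} (hl1 : l 1 = 1) {k J D : ℕ} (hk : 0 < k) (hJ : 1 ≤ J) (hD : 1 ≤ D) (hDk : D ≤ k)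
    {x y : ℝ} (hyx : y ≤ x) (hJy : y + 1 ≤ J * k) (a : ℕ) :
    ((PS x y k a).ncard : ℝ) ≤
      1 + J * VM l D J k (⌊x - y⌋₊ - k) (rp k (a + (k - 1) * (⌊x - y⌋₊ - k))) := by
  classical
  obtain ⟨F, hF⟩ : ∃ F : ℕ, F = ⌊x - y⌋₊ := ⟨_, rfl⟩
  rw [← hF]
  obtain ⟨u, hu⟩ : ∃ u : ℕ, u = F - k := ⟨_, rfl⟩
  rw [← hu]
  obtain ⟨n, hn⟩ : ∃ n : ℕ, n = rp k (a + (k - 1) * u) := ⟨_, rfl⟩
  have hxy0 : 0 ≤ x - y := by linarith
  have hF1 : (F : ℝ) ≤ x - y := by rw [hF]; exact Nat.floor_le hxy0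
  have hF2 : x - y < F + 1 := by rw [hF]; exact Nat.lt_floor_add_one _
  have hnm : n ∈ Ioc 0 k := by rw [hn]; exact rp_mem hk _
  have hna : n + u ≡ a [MOD k] := by rw [hn]; exact rp_shift hk a u
  rw [← hn]
  have hnm' := mem_Ioc.1 hnm
  have hJ0 : (0 : ℝ) < J := by exact_mod_cast hJ
  have e1 : (J : ℝ) * VM l D J k u n = ∑ h ∈ Ioc 0 J, nu l D (n + (u + h * k)) := by
    unfold VM
    field_simp
  rw [e1]
  set S : Finset ℕ := (Ioc 0 J).filter (fun h => (n + (u + h * k)).Prime) with hS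
  have hsub : PS x y k a ⊆ (({rp k a} ∪ S.image (fun h => n + (u + h * k)) : Finset ℕ) : Set ℕ) := by
    intro p hp
    obtain ⟨hp1, hp2, hp3, hp4⟩ := hp
    rw [Finset.mem_coe, mem_union, mem_singleton, mem_image]
    rcases Nat.lt_or_ge k p with hkp | hkp
    · right
      have hup : u + k < p := by
        rcases Nat.lt_or_ge F k with h1 | h1
        · omega
        · have h2 : (F : ℝ) < p := lt_of_le_of_lt hF1 hp3
          have h3 : F < p := by exact_mod_cast h2
          omega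
      have hcong : k ∣ p - u - n := by
        have h1 : n + u ≡ p [MOD k] := hna.trans hp2.symm
        have h2 := (Nat.modEq_iff_dvd' (show n + u ≤ p by omega)).1 h1
        have e : p - u - n = p - (n + u) := by omega
        rw [e]; exact h2
      obtain ⟨h, hh⟩ := hcong
      have hpe : p = n + (u + h * k) := by
        have e : k * h = h * k := Nat.mul_comm _ _
        omega
      refine ⟨h, ?_, hpe.symm⟩
      rw [hS, mem_filter, mem_Ioc]
      refine ⟨⟨?_, ?_⟩, by rw [← hpe]; exact hp1⟩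
      · rcases Nat.eq_zero_or_pos h with h0 | h0
        · rw [h0, Nat.mul_zero] at hh; omega
        · exact h0
      · by_contra hc
        push Not at hc
        have h1 : (J + 1) * k ≤ h * k := Nat.mul_le_mul_right k hc
        have h2 : (((J + 1) * k : ℕ) : ℝ) ≤ ((h * k : ℕ) : ℝ) := by exact_mod_cast h1
        have h3 : (p : ℝ) = n + (u + ((h * k : ℕ) : ℝ)) := by rw [hpe]; push_cast; ring
        have h4 : (F : ℝ) ≤ u + k := by
          have : F ≤ u + k := by omega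
          exact_mod_cast this
        have h5 : (1 : ℝ) ≤ n := by exact_mod_cast hnm'.1
        push_cast at h2 h3
        nlinarith
    · left
      have h1 : p ∈ Ioc 0 k := by rw [mem_Ioc]; exact ⟨hp1.pos, hkp⟩
      exact rep_unique h1 (rp_mem hk a) (hp2.trans (rp_modEq k a).symm)
  have hcard : ((PS x y k a).ncard : ℝ) ≤ 1 + (S.card : ℝ) := by
    have h1 := Set.ncard_le_ncard hsub (Finset.finite_toSet _)
    rw [Set.ncard_coe_finset] at h1
    have h2 := Finset.card_union_le ({rp k a} : Finset ℕ) (S.image (fun h => n + (u + h * k)))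
    have h3 := Finset.card_image_le (s := S) (f := fun h => n + (u + h * k))
    rw [card_singleton] at h2
    have h4 : (PS x y k a).ncard ≤ 1 + S.card := by omega
    exact_mod_cast h4
  refine hcard.trans (add_le_add_right ?_ 1)
  have e2 : (S.card : ℝ) = ∑ h ∈ S, (1 : ℝ) := by simp
  rw [e2]
  calc ∑ h ∈ S, (1 : ℝ) ≤ ∑ h ∈ S, nu l D (n + (u + h * k)) := by
        apply sum_le_sum
        intro h hh
        rw [hS, mem_filter, mem_Ioc] at hh
        have h1 : k ≤ h * k := Nat.le_mul_of_pos_left k hh.1.1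
        exact (nu_prime hl1 hD hh.2 (by omega)).symm.le
    _ ≤ ∑ h ∈ Ioc 0 J, nu l D (n + (u + h * k)) :=
        sum_le_sum_of_subset_of_nonneg (filter_subset _ _) fun _ _ _ => nu_nonneg _ _ _

/-- the number of classes with many primes -/
lemma bad_le {l : ℕ → ℝ} (hl1 : l 1 = 1) {k J D : ℕ} (hk : 0 < k) (hJ : 1 ≤ J) (hD : 1 ≤ D) (hDk : D ≤ k)
    {x y : ℝ} (hyx : y ≤ x) (hJy : y + 1 ≤ J * k) {V t M : ℝ} (ht : 0 < t)
    (hV : ∀ u : ℕ, ∑ n ∈ Ioc 0 k, (VM l D J k u n - mv l D) ^ 2 ≤ V)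
    (hM : 1 + J * (mv l D + t) ≤ M) :
    (((range k).filter (fun a => M < ((PS x y k a).ncard : ℝ))).card : ℝ) ≤ V / t ^ 2 := by
  classical
  have hJ0 : (0 : ℝ) < J := by exact_mod_cast hJ
  obtain ⟨u, hu⟩ : ∃ u : ℕ, u = ⌊x - y⌋₊ - k := ⟨_, rfl⟩
  set B := (range k).filter (fun a => M < ((PS x y k a).ncard : ℝ)) with hB
  have h1 : ∀ a ∈ B, t ^ 2 ≤ (VM l D J k u (rp k (a + (k - 1) * u)) - mv l D) ^ 2 := by
    intro a ha
    rw [hB, mem_filter] at ha
    have h2 := cnt_le hl1 hk hJ hD hDk hyx hJy a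
    rw [← hu] at h2
    have h3 : t < VM l D J k u (rp k (a + (k - 1) * u)) - mv l D := by
      by_contra hc
      push Not at hc
      have h4 : (J : ℝ) * VM l D J k u (rp k (a + (k - 1) * u)) ≤ J * (mv l D + t) :=
        mul_le_mul_of_nonneg_left (by linarith) hJ0.le
      linarith [ha.2]
    exact pow_le_pow_left₀ ht.le h3.le 2
  have h2 : (B.card : ℝ) * t ^ 2 ≤ V := by
    calc (B.card : ℝ) * t ^ 2 = ∑ a ∈ B, t ^ 2 := by rw [sum_const, nsmul_eq_mul]
      _ ≤ ∑ a ∈ B, (VM l D J k u (rp k (a + (k - 1) * u)) - mv l D) ^ 2 := sum_le_sum h1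
      _ ≤ ∑ n ∈ Ioc 0 k, (VM l D J k u n - mv l D) ^ 2 := by
          have hinj : Set.InjOn (fun a => rp k (a + (k - 1) * u)) (B : Set ℕ) := by
            intro a ha a' ha' he
            rw [hB, Finset.mem_coe, mem_filter, mem_range] at ha ha'
            exact rp_inj ha.1 ha'.1 he
          rw [← sum_image (f := fun n => (VM l D J k u n - mv l D) ^ 2) hinj]
          apply sum_le_sum_of_subset_of_nonneg
          · intro n hn
            rw [mem_image] at hn
            obtain ⟨a, _, rfl⟩ := hn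
            exact rp_mem hk _
          · intro _ _ _; exact sq_nonneg _
      _ ≤ V := hV u
  rw [le_div_iff₀ (by positivity)]
  exact h2

end Pool.Agent.TH847.BT
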