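import Pool.Agent.TH847.BT.Cnt

/-! Elementary inequalities. -/

set_option autoImplicit false

namespace Pool.Agent.TH847.BT
open Finset Filter Pool.Agent.W301.SS Pool.Agent.TH847.LM

lemma num1 {ε y k φ L J mvv : ℝ} (hε : 0 < ε) (hε1 : ε ≤ 1) (hk : 0 < k) (hφ : 0 < φ) (hφk : φ ≤ k)
    (hL : 1 ≤ L) (hJ : J ≤ (1 + ε / 20) * (y / k)) (hJ0 : 0 ≤ J) (hy : 4 / ε * L ≤ y / k)
    (hmv : mvv ≤ (4 + ε / 3) * (k / φ / L)) :
    1 + J * (mvv + ε / (8 * L)) ≤ (4 + ε) * y / (φ * L) := by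
  have hL0 : 0 < L := by linarith
  obtain ⟨z, hz⟩ : ∃ z : ℝ, z = y / k := ⟨_, rfl⟩
  rw [← hz] at hJ hy
  have hz0 : 0 ≤ z := le_trans (by positivity) hy
  obtain ⟨r, hr⟩ : ∃ r : ℝ, r = k / φ := ⟨_, rfl⟩
  rw [← hr] at hmv
  have hr1 : 1 ≤ r := by rw [hr, le_div_iff₀ hφ]; linarith
  obtain ⟨q, hq⟩ : ∃ q : ℝ, q = z * r / L := ⟨_, rfl⟩
  have e1 : (4 + ε) * y / (φ * L) = (4 + ε) * q := by
    rw [hq, hz, hr]; field_simp
  have hzq : z / L ≤ q := by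
    rw [hq]
    apply div_le_div_of_nonneg_right _ hL0.le
    nlinarith
  have hzL : 0 ≤ z / L := by positivity
  have hq0 : 0 ≤ q := hzL.trans hzq
  have h1 : J * mvv ≤ (1 + ε / 20) * (4 + ε / 3) * q := by
    calc J * mvv ≤ J * ((4 + ε / 3) * (r / L)) := mul_le_mul_of_nonneg_left hmv hJ0
      _ ≤ ((1 + ε / 20) * z) * ((4 + ε / 3) * (r / L)) := mul_le_mul_of_nonneg_right hJ (by positivity)
      _ = _ := by rw [hq]; ring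
  have h2 : J * (ε / (8 * L)) ≤ (1 + ε / 20) * (ε / 8) * q := by
    calc J * (ε / (8 * L)) ≤ ((1 + ε / 20) * z) * (ε / (8 * L)) :=
          mul_le_mul_of_nonneg_right hJ (by positivity)
      _ = (1 + ε / 20) * (ε / 8) * (z / L) := by field_simp
      _ ≤ _ := mul_le_mul_of_nonneg_left hzq (by positivity)
  have h3 : 1 ≤ ε / 4 * q := by
    have h4 : 4 / ε ≤ z / L := by rw [le_div_iff₀ hL0]; exact hy
    have h5 : 4 / ε ≤ q := h4.trans hzq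
    rw [div_le_iff₀ hε] at h5
    linarith
  rw [e1, mul_add]
  have h6 : (1 + ε / 20) * (4 + ε / 3) + (1 + ε / 20) * (ε / 8) + ε / 4 ≤ 4 + ε := by nlinarith
  have h7 := mul_le_mul_of_nonneg_right h6 hq0
  linarith

lemma m1 {a b : ℝ} (ha : 1 ≤ a) (hb : 0 ≤ b) : b ≤ a * b := le_mul_of_one_le_left hb ha

lemma m2 {a b : ℝ} (ha : 1 ≤ a) (hb : 1 ≤ b) : 1 ≤ a * b := one_le_mul_of_one_le_of_one_le ha hb

lemma m3 {a b : ℝ} (ha : 1 ≤ a) (hb : 0 ≤ b) : b ≤ b * a := le_mul_of_one_le_right hb ha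

lemma m4 {ε : ℝ} (h0 : 0 < ε) (h1 : ε ≤ 1) : (1 : ℝ) ≤ (4 + ε / 3) * (1 / 4 - 2 * (ε / 200)) := by
  nlinarith

lemma m5 {W Y η : ℝ} (hW : 0 ≤ W) (hY : 0 ≤ Y) (hη : η ≤ 1) : W * ((1 + η) * Y) ≤ 2 * W * Y := by
  have := mul_nonneg hW hY
  nlinarith

lemma m6 {ε : ℝ} (h0 : 0 < ε) (h1 : ε ≤ 1) : (4 + ε / 4) * (1 + 2 * (ε / 100)) ≤ 4 + ε := by
  nlinarith

end Pool.Agent.TH847.BT
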