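import Pool.Agent.TH847.LM.Var

/-! The variance of Selberg's upper bound function over the residue classes modulo `m`, with the
error term divided by the number of shifts. -/

set_option autoImplicit false

namespace Pool.Agent.TH847.BT
open Finset Pool.Agent.W301.SS Pool.Agent.TH847.LM

/-- consecutive blocks of length `m` -/
lemma blocks (m : ℕ) (P : ℕ → Prop) [DecidablePred P] (H : ℕ) :
    ∑ h ∈ range H, (((Ioc 0 m).filter (fun n => P (n + h * m))).card : ℝ) =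
      (((Ioc 0 (H * m)).filter P).card : ℝ) := by
  induction H with
  | zero => simp
  | succ H ih =>
    rw [sum_range_succ, ih]
    have e : (Ioc 0 ((H + 1) * m)).filter P =
        (Ioc 0 (H * m)).filter P ∪ ((Ioc 0 m).filter (fun n => P (n + H * m))).image (fun n => n + H * m) := by
      ext N
      simp only [mem_filter, mem_union, mem_image, mem_Ioc]
      constructor
      · rintro ⟨⟨h1, h2⟩, h3⟩
        rcases Nat.lt_or_ge (H * m) N with h4 | h4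
        · right
          refine ⟨N - H * m, ⟨⟨by omega, ?_⟩, ?_⟩, by omega⟩
          · have : (H + 1) * m = H * m + m := by ring
            omega
          · have : N - H * m + H * m = N := by omega
            rw [this]; exact h3
        · left
          exact ⟨⟨h1, h4⟩, h3⟩
      · have : (H + 1) * m = H * m + m := by ring
        rintro (⟨⟨h1, h2⟩, h3⟩ | ⟨n, ⟨⟨h1, h2⟩, h3⟩, rfl⟩)
        · exact ⟨⟨h1, by omega⟩, h3⟩
        · exact ⟨⟨by omega, by omega⟩, h3⟩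
    rw [e, card_union_of_disjoint, card_image_of_injective _ (add_left_injective _)]
    · push_cast; ring
    · rw [disjoint_left]
      intro N h1 h2
      rw [mem_filter, mem_Ioc] at h1
      rw [mem_image] at h2
      obtain ⟨n, hn, rfl⟩ := h2
      rw [mem_filter, mem_Ioc] at hn
      omega

/-- a square as a union of diagonals -/
lemma diags (H : ℕ) (e : ℕ → ℕ → ℝ) :
    ∑ h ∈ range H, ∑ k ∈ range H, e h k =
      ∑ t ∈ range H, ∑ h ∈ range (H - t), e h (h + t) +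
      ∑ t ∈ range H, ∑ h ∈ range (H - (t + 1)), e (h + (t + 1)) h := by
  have h1 : ∑ h ∈ range H, ∑ k ∈ range H, e h k =
      ∑ h ∈ range H, (∑ k ∈ range h, e h k + ∑ k ∈ Ico h H, e h k) := by
    apply sum_congr rfl
    intro h hh
    rw [mem_range] at hh
    exact (sum_range_add_sum_Ico _ hh.le).symm
  rw [h1, sum_add_distrib, add_comm]
  congr 1
  · rw [sum_congr rfl (fun h _ => sum_Ico_eq_sum_range _ _ _)]
    apply sum_comm'
    intro x y
    simp only [mem_range]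
    omega
  · have h2 : ∑ h ∈ range H, ∑ k ∈ range h, e h k = ∑ k ∈ range H, ∑ h ∈ Ico (k + 1) H, e h k := by
      apply sum_comm'
      intro x y
      simp only [mem_range, mem_Ico]
      omega
    rw [h2, sum_congr rfl (fun k _ => sum_Ico_eq_sum_range _ _ _)]
    have h3 : ∑ k ∈ range H, ∑ i ∈ range (H - (k + 1)), e (k + 1 + i) k =
        ∑ t ∈ range H, ∑ h ∈ range (H - (t + 1)), e (h + 1 + t) h := by
      apply sum_comm'
      intro x y
      simp only [mem_range]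
      omega
    rw [h3]
    apply sum_congr rfl; intro t _
    apply sum_congr rfl; intro h _
    congr 1
    ring

lemma diag_abs (H : ℕ) (e : ℕ → ℕ → ℝ) (h1 : ∀ t H' : ℕ, |∑ h ∈ range H', e h (h + t)| ≤ 1)
    (h2 : ∀ t H' : ℕ, |∑ h ∈ range H', e (h + t) h| ≤ 1) :
    |∑ h ∈ range H, ∑ k ∈ range H, e h k| ≤ 2 * H := by
  rw [diags]
  refine (abs_add_le _ _).trans ?_
  have a1 : |∑ t ∈ range H, ∑ h ∈ range (H - t), e h (h + t)| ≤ H := by
    refine (abs_sum_le_sum_abs _ _).trans ?_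
    refine (sum_le_sum fun t _ => h1 t _).trans ?_
    simp
  have a2 : |∑ t ∈ range H, ∑ h ∈ range (H - (t + 1)), e (h + (t + 1)) h| ≤ H := by
    refine (abs_sum_le_sum_abs _ _).trans ?_
    refine (sum_le_sum fun t _ => h2 (t + 1) _).trans ?_
    simp
  linarith

lemma Ioc_range (H : ℕ) (f : ℕ → ℝ) : ∑ h ∈ Ioc 0 H, f h = ∑ h ∈ range H, f (h + 1) := by
  rw [range_eq_Ico, sum_Ico_add' f 0 H 1]
  rfl

/-- the correlation of two divisibility conditions, over all pairs of blocks -/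
lemma corrM' (H a b m u : ℕ) (ha : 0 < a) (hb : 0 < b) (ham : a.Coprime m) :
    |(∑ h ∈ Ioc 0 H, ∑ k ∈ Ioc 0 H, (((Ioc 0 m).filter (fun n => a ∣ n + (u + h * m) ∧ b ∣ n + (u + k * m))).card : ℝ)) -
      (H : ℝ) ^ 2 * m / (a * b)| ≤ 2 * (H : ℝ) + m * H / Nat.lcm a b := by
  have hg0 : 0 < Nat.gcd a b := Nat.gcd_pos_of_pos_left _ ha
  have hl0 : 0 < Nat.lcm a b := Nat.lcm_pos ha hb
  have hgr : (0 : ℝ) < Nat.gcd a b := by exact_mod_cast hg0
  have hlr : (0 : ℝ) < Nat.lcm a b := by exact_mod_cast hl0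
  have hgl : (Nat.gcd a b : ℝ) * (Nat.lcm a b : ℝ) = (a : ℝ) * b := by
    exact_mod_cast Nat.gcd_mul_lcm a b
  have h1 : |(∑ h ∈ Ioc 0 H, ∑ k ∈ Ioc 0 H, (((Ioc 0 m).filter (fun n => a ∣ n + (u + h * m) ∧ b ∣ n + (u + k * m))).card : ℝ)) -
      ∑ h ∈ Ioc 0 H, ∑ k ∈ Ioc 0 H, (if ((Nat.gcd a b : ℕ) : ℤ) ∣ (h : ℤ) - (k : ℕ) then (m : ℝ) / Nat.lcm a b else 0)| ≤
      2 * (H : ℝ) := by
    rw [← sum_sub_distrib]
    simp_rw [← sum_sub_distrib]
    obtain ⟨e, he⟩ : ∃ e : ℕ → ℕ → ℝ, e = fun h k =>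
      (((Ioc 0 m).filter (fun n => a ∣ n + (u + (h + 1) * m) ∧ b ∣ n + (u + (k + 1) * m))).card : ℝ) -
      (if ((Nat.gcd a b : ℕ) : ℤ) ∣ ((h + 1 : ℕ) : ℤ) - ((k + 1 : ℕ) : ℤ) then (m : ℝ) / Nat.lcm a b else 0) := ⟨_, rfl⟩
    have e1 : ∑ h ∈ Ioc 0 H, ∑ k ∈ Ioc 0 H, ((((Ioc 0 m).filter (fun n => a ∣ n + (u + h * m) ∧ b ∣ n + (u + k * m))).card : ℝ) -
        (if ((Nat.gcd a b : ℕ) : ℤ) ∣ (h : ℤ) - (k : ℕ) then (m : ℝ) / Nat.lcm a b else 0)) =
        ∑ h ∈ range H, ∑ k ∈ range H, e h k := by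
      rw [Ioc_range]
      apply sum_congr rfl; intro h _
      rw [Ioc_range, he]
    rw [e1]
    apply diag_abs
    · intro t H'
      have hh := cnt2 (H' * m) a b (u + 1 * m) (u + (1 + t) * m) ha hb
      simp only [gcd_cop ham] at hh
      have e2 : ∑ h ∈ range H', e h (h + t) =
          (((Ioc 0 (H' * m)).filter (fun n => a ∣ n + (u + 1 * m) ∧ b ∣ n + (u + (1 + t) * m))).card : ℝ) -
          (if ((Nat.gcd a b : ℕ) : ℤ) ∣ ((1 : ℕ) : ℤ) - ((1 + t : ℕ) : ℤ) then ((H' * m : ℕ) : ℝ) / Nat.lcm a b else 0) := by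
        rw [he]
        simp only
        rw [sum_sub_distrib, ← blocks]
        congr 1
        · apply sum_congr rfl; intro h _
          congr 2
          apply filter_congr
          intro n _
          have c1 : n + (u + (h + 1) * m) = n + h * m + (u + 1 * m) := by ring
          have c2 : n + (u + (h + t + 1) * m) = n + h * m + (u + (1 + t) * m) := by ring
          rw [c1, c2]
        · have c3 : ∀ h ∈ range H', (if ((Nat.gcd a b : ℕ) : ℤ) ∣ ((h + 1 : ℕ) : ℤ) - ((h + t + 1 : ℕ) : ℤ)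
              then (m : ℝ) / Nat.lcm a b else 0) = (if ((Nat.gcd a b : ℕ) : ℤ) ∣ ((1 : ℕ) : ℤ) - ((1 + t : ℕ) : ℤ)
              then (m : ℝ) / Nat.lcm a b else 0) := by
            intro h _
            have c4 : ((h + 1 : ℕ) : ℤ) - ((h + t + 1 : ℕ) : ℤ) = ((1 : ℕ) : ℤ) - ((1 + t : ℕ) : ℤ) := by
              push_cast; ring
            rw [c4]
          rw [sum_congr rfl c3, sum_const, card_range, nsmul_eq_mul]
          split_ifs
          · push_cast; ring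
          · simp
      rw [e2]
      exact hh
    · intro t H'
      have hh := cnt2 (H' * m) a b (u + (1 + t) * m) (u + 1 * m) ha hb
      simp only [gcd_cop ham] at hh
      have e2 : ∑ h ∈ range H', e (h + t) h =
          (((Ioc 0 (H' * m)).filter (fun n => a ∣ n + (u + (1 + t) * m) ∧ b ∣ n + (u + 1 * m))).card : ℝ) -
          (if ((Nat.gcd a b : ℕ) : ℤ) ∣ ((1 + t : ℕ) : ℤ) - ((1 : ℕ) : ℤ) then ((H' * m : ℕ) : ℝ) / Nat.lcm a b else 0) := by
        rw [he]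
        simp only
        rw [sum_sub_distrib, ← blocks]
        congr 1
        · apply sum_congr rfl; intro h _
          congr 2
          apply filter_congr
          intro n _
          have c1 : n + (u + (h + 1) * m) = n + h * m + (u + 1 * m) := by ring
          have c2 : n + (u + (h + t + 1) * m) = n + h * m + (u + (1 + t) * m) := by ring
          rw [c1, c2]
        · have c3 : ∀ h ∈ range H', (if ((Nat.gcd a b : ℕ) : ℤ) ∣ ((h + t + 1 : ℕ) : ℤ) - ((h + 1 : ℕ) : ℤ)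
              then (m : ℝ) / Nat.lcm a b else 0) = (if ((Nat.gcd a b : ℕ) : ℤ) ∣ ((1 + t : ℕ) : ℤ) - ((1 : ℕ) : ℤ)
              then (m : ℝ) / Nat.lcm a b else 0) := by
            intro h _
            have c4 : ((h + t + 1 : ℕ) : ℤ) - ((h + 1 : ℕ) : ℤ) = ((1 + t : ℕ) : ℤ) - ((1 : ℕ) : ℤ) := by
              push_cast; ring
            rw [c4]
          rw [sum_congr rfl c3, sum_const, card_range, nsmul_eq_mul]
          split_ifs
          · push_cast; ring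
          · simp
      rw [e2]
      exact hh
  have h2 : |(∑ h ∈ Ioc 0 H, ∑ k ∈ Ioc 0 H, (if ((Nat.gcd a b : ℕ) : ℤ) ∣ (h : ℤ) - (k : ℕ) then (m : ℝ) / Nat.lcm a b else 0)) -
      (H : ℝ) ^ 2 * m / (a * b)| ≤ m * H / Nat.lcm a b := by
    have e : (H : ℝ) ^ 2 * m / (a * b) = ∑ _h ∈ Ioc 0 H, (H / Nat.gcd a b) * ((m : ℝ) / Nat.lcm a b) := by
      rw [sum_const, nsmul_eq_mul, Nat.card_Ioc, Nat.sub_zero, ← hgl]
      field_simp
    rw [e, ← sum_sub_distrib]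
    refine (abs_sum_le_sum_abs _ _).trans ?_
    have : ∀ h ∈ Ioc 0 H, |(∑ k ∈ Ioc 0 H, (if ((Nat.gcd a b : ℕ) : ℤ) ∣ (h : ℤ) - (k : ℕ) then (m : ℝ) / Nat.lcm a b else 0)) -
        (H / Nat.gcd a b) * ((m : ℝ) / Nat.lcm a b)| ≤ (m : ℝ) / Nat.lcm a b := by
      intro h _
      rw [← sum_filter, sum_const, nsmul_eq_mul, ← sub_mul, abs_mul,
        abs_of_nonneg (show 0 ≤ (m : ℝ) / Nat.lcm a b by positivity)]
      have := cntH H (Nat.gcd a b) h hg0
      calc _ ≤ 1 * ((m : ℝ) / Nat.lcm a b) := mul_le_mul_of_nonneg_right this (by positivity)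
        _ = _ := one_mul _
    refine (sum_le_sum this).trans (le_of_eq ?_)
    rw [sum_const, nsmul_eq_mul, Nat.card_Ioc, Nat.sub_zero]
    ring
  have h3 := abs_sub_le (∑ h ∈ Ioc 0 H, ∑ k ∈ Ioc 0 H, (((Ioc 0 m).filter (fun n => a ∣ n + (u + h * m) ∧ b ∣ n + (u + k * m))).card : ℝ))
    (∑ h ∈ Ioc 0 H, ∑ k ∈ Ioc 0 H, (if ((Nat.gcd a b : ℕ) : ℤ) ∣ (h : ℤ) - (k : ℕ) then (m : ℝ) / Nat.lcm a b else 0))
    ((H : ℝ) ^ 2 * m / (a * b))
  linarith

/-- **The variance of Selberg's function over short intervals.** -/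
theorem varianceM' (l : ℕ → ℝ) (hl : ∀ d, |l d| ≤ 1) (D : ℕ) (hD : 1 ≤ D) (hm0 : 0 ≤ mv l D)
    (hm1 : mv l D ≤ 1) (H m u : ℕ) (hH : 1 ≤ H) (hlm : ∀ d, ¬ d.Coprime m → l d = 0) :
    ∑ n ∈ Ioc 0 m, (VM l D H m u n - mv l D) ^ 2 ≤
      4 * (D : ℝ) ^ 4 / H + m / H * (1 + 4 * Real.log D) ^ 16 := by
  have hH0 : (0 : ℝ) < H := by exact_mod_cast hH
  have hD1 : (1 : ℝ) ≤ D := by exact_mod_cast hD
  set c := mv l D with hc
  have hll : ∀ x : ℕ × ℕ, |l x.1 * l x.2| ≤ 1 := by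
    intro x
    rw [abs_mul]
    exact mul_le_one₀ (hl _) (abs_nonneg _) (hl _)
  -- first moment
  have S1 : |(H : ℝ) * (∑ n ∈ Ioc 0 m, VM l D H m u n) - H * m * c| ≤ (D : ℝ) ^ 2 := by
    have e1 : (H : ℝ) * (∑ n ∈ Ioc 0 m, VM l D H m u n) = ∑ x ∈ DD D, l x.1 * l x.2 *
        ∑ h ∈ Ioc 0 H, (((Ioc 0 m).filter (fun n => Nat.lcm x.1 x.2 ∣ n + (u + h * m))).card : ℝ) := by
      calc (H : ℝ) * (∑ n ∈ Ioc 0 m, VM l D H m u n) = ∑ n ∈ Ioc 0 m, ∑ h ∈ Ioc 0 H, nu l D (n + (u + h * m)) := by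
            rw [mul_sum]
            apply sum_congr rfl; intro n _
            unfold VM; field_simp
        _ = ∑ n ∈ Ioc 0 m, ∑ h ∈ Ioc 0 H, ∑ x ∈ DD D, l x.1 * l x.2 *
              (if Nat.lcm x.1 x.2 ∣ n + (u + h * m) then 1 else 0) := by
            apply sum_congr rfl; intro n _
            apply sum_congr rfl; intro h _
            exact nu_eq l D (n + (u + h * m))
        _ = ∑ x ∈ DD D, ∑ h ∈ Ioc 0 H, ∑ n ∈ Ioc 0 m, l x.1 * l x.2 *
              (if Nat.lcm x.1 x.2 ∣ n + (u + h * m) then 1 else 0) := by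
            rw [sum_comm]
            rw [sum_congr rfl (fun h _ => sum_comm)]
            rw [sum_comm]
        _ = _ := by
            apply sum_congr rfl; intro x _
            rw [mul_sum]
            apply sum_congr rfl; intro h _
            rw [← mul_sum, card_filter]
            push_cast
            rfl
    have e2 : (H : ℝ) * m * c = ∑ x ∈ DD D, l x.1 * l x.2 * (H * (m / (Nat.lcm x.1 x.2 : ℝ))) := by
      rw [hc]; unfold mv
      rw [mul_sum]
      apply sum_congr rfl; intro x _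
      ring
    rw [e1, e2, ← sum_sub_distrib]
    refine (abs_sum_le_sum_abs _ _).trans ?_
    have : ∀ x ∈ DD D, |l x.1 * l x.2 * (∑ h ∈ Ioc 0 H,
        (((Ioc 0 m).filter (fun n => Nat.lcm x.1 x.2 ∣ n + (u + h * m))).card : ℝ)) -
        l x.1 * l x.2 * (H * (m / (Nat.lcm x.1 x.2 : ℝ)))| ≤ 1 := by
      intro x hx
      rw [← mul_sub, abs_mul]
      have h2 : |(∑ h ∈ Ioc 0 H, (((Ioc 0 m).filter (fun n => Nat.lcm x.1 x.2 ∣ n + (u + h * m))).card : ℝ)) -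
          (H * (m / (Nat.lcm x.1 x.2 : ℝ)))| ≤ 1 := by
        have hh := cntD (H * m) _ (u + 1 * m) (DD_pos hx)
        have e3 : ∑ h ∈ Ioc 0 H, (((Ioc 0 m).filter (fun n => Nat.lcm x.1 x.2 ∣ n + (u + h * m))).card : ℝ) =
            (((Ioc 0 (H * m)).filter (fun n => Nat.lcm x.1 x.2 ∣ n + (u + 1 * m))).card : ℝ) := by
          rw [Ioc_range, ← blocks]
          apply sum_congr rfl; intro h _
          congr 2
          apply filter_congr
          intro n _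
          have c1 : n + (u + (h + 1) * m) = n + h * m + (u + 1 * m) := by ring
          rw [c1]
        rw [e3]
        have e4 : (H * (m / (Nat.lcm x.1 x.2 : ℝ))) = ((H * m : ℕ) : ℝ) / (Nat.lcm x.1 x.2 : ℝ) := by
          push_cast; ring
        rw [e4]
        exact hh
      calc _ ≤ 1 * (1 : ℝ) := mul_le_mul (hll x) h2 (abs_nonneg _) (by norm_num)
        _ = _ := one_mul _
    refine (sum_le_sum this).trans (le_of_eq ?_)
    rw [sum_const, nsmul_eq_mul]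
    unfold DD
    rw [card_product, Nat.card_Icc]
    push_cast; ring
  -- second moment
  have S2 : |(H : ℝ) ^ 2 * (∑ n ∈ Ioc 0 m, VM l D H m u n ^ 2) - (H : ℝ) ^ 2 * m * c ^ 2| ≤
      2 * (H : ℝ) * (D : ℝ) ^ 4 + m * H * QS D := by
    have e1 : (H : ℝ) ^ 2 * (∑ n ∈ Ioc 0 m, VM l D H m u n ^ 2) = ∑ x ∈ DD D, ∑ z ∈ DD D,
        (l x.1 * l x.2) * (l z.1 * l z.2) * ∑ h ∈ Ioc 0 H, ∑ k ∈ Ioc 0 H,
        (((Ioc 0 m).filter (fun n => Nat.lcm x.1 x.2 ∣ n + (u + h * m) ∧ Nat.lcm z.1 z.2 ∣ n + (u + k * m))).card : ℝ) := by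
      have f1 : ∀ n ∈ Ioc 0 m, (H : ℝ) ^ 2 * VM l D H m u n ^ 2 =
          ∑ h ∈ Ioc 0 H, ∑ k ∈ Ioc 0 H, ∑ x ∈ DD D, ∑ z ∈ DD D, (l x.1 * l x.2) * (l z.1 * l z.2) *
            (if Nat.lcm x.1 x.2 ∣ n + (u + h * m) ∧ Nat.lcm z.1 z.2 ∣ n + (u + k * m) then 1 else 0) := by
        intro n _
        have g1 : (H : ℝ) ^ 2 * VM l D H m u n ^ 2 = (∑ h ∈ Ioc 0 H, nu l D (n + (u + h * m))) ^ 2 := by
          unfold VM; field_simp
        rw [g1, sq, sum_mul_sum]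
        apply sum_congr rfl; intro h _
        apply sum_congr rfl; intro k _
        rw [nu_eq, nu_eq, sum_mul_sum]
        apply sum_congr rfl; intro x _
        apply sum_congr rfl; intro z _
        by_cases h1 : Nat.lcm x.1 x.2 ∣ n + (u + h * m) <;> by_cases h2 : Nat.lcm z.1 z.2 ∣ n + (u + k * m) <;>
          simp [h1, h2]
      rw [mul_sum, sum_congr rfl f1]
      calc _ = ∑ h ∈ Ioc 0 H, ∑ n ∈ Ioc 0 m, ∑ k ∈ Ioc 0 H, ∑ x ∈ DD D, ∑ z ∈ DD D,
            (l x.1 * l x.2) * (l z.1 * l z.2) *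
            (if Nat.lcm x.1 x.2 ∣ n + (u + h * m) ∧ Nat.lcm z.1 z.2 ∣ n + (u + k * m) then (1 : ℝ) else 0) := sum_comm
        _ = ∑ h ∈ Ioc 0 H, ∑ k ∈ Ioc 0 H, ∑ n ∈ Ioc 0 m, ∑ x ∈ DD D, ∑ z ∈ DD D,
            (l x.1 * l x.2) * (l z.1 * l z.2) *
            (if Nat.lcm x.1 x.2 ∣ n + (u + h * m) ∧ Nat.lcm z.1 z.2 ∣ n + (u + k * m) then (1 : ℝ) else 0) :=
            sum_congr rfl fun h _ => sum_comm
        _ = ∑ h ∈ Ioc 0 H, ∑ k ∈ Ioc 0 H, ∑ x ∈ DD D, ∑ z ∈ DD D,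
            (l x.1 * l x.2) * (l z.1 * l z.2) *
            (((Ioc 0 m).filter (fun n => Nat.lcm x.1 x.2 ∣ n + (u + h * m) ∧ Nat.lcm z.1 z.2 ∣ n + (u + k * m))).card : ℝ) := by
            apply sum_congr rfl; intro h _
            apply sum_congr rfl; intro k _
            rw [sum_comm]
            apply sum_congr rfl; intro x _
            rw [sum_comm]
            apply sum_congr rfl; intro z _
            rw [← mul_sum, card_filter]
            push_cast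
            rfl
        _ = ∑ h ∈ Ioc 0 H, ∑ x ∈ DD D, ∑ k ∈ Ioc 0 H, ∑ z ∈ DD D,
            (l x.1 * l x.2) * (l z.1 * l z.2) *
            (((Ioc 0 m).filter (fun n => Nat.lcm x.1 x.2 ∣ n + (u + h * m) ∧ Nat.lcm z.1 z.2 ∣ n + (u + k * m))).card : ℝ) :=
            sum_congr rfl fun h _ => sum_comm
        _ = ∑ x ∈ DD D, ∑ h ∈ Ioc 0 H, ∑ k ∈ Ioc 0 H, ∑ z ∈ DD D,
            (l x.1 * l x.2) * (l z.1 * l z.2) *
            (((Ioc 0 m).filter (fun n => Nat.lcm x.1 x.2 ∣ n + (u + h * m) ∧ Nat.lcm z.1 z.2 ∣ n + (u + k * m))).card : ℝ) :=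
            sum_comm
        _ = ∑ x ∈ DD D, ∑ h ∈ Ioc 0 H, ∑ z ∈ DD D, ∑ k ∈ Ioc 0 H,
            (l x.1 * l x.2) * (l z.1 * l z.2) *
            (((Ioc 0 m).filter (fun n => Nat.lcm x.1 x.2 ∣ n + (u + h * m) ∧ Nat.lcm z.1 z.2 ∣ n + (u + k * m))).card : ℝ) :=
            sum_congr rfl fun x _ => sum_congr rfl fun h _ => sum_comm
        _ = ∑ x ∈ DD D, ∑ z ∈ DD D, ∑ h ∈ Ioc 0 H, ∑ k ∈ Ioc 0 H,
            (l x.1 * l x.2) * (l z.1 * l z.2) *
            (((Ioc 0 m).filter (fun n => Nat.lcm x.1 x.2 ∣ n + (u + h * m) ∧ Nat.lcm z.1 z.2 ∣ n + (u + k * m))).card : ℝ) :=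
            sum_congr rfl fun x _ => sum_comm
        _ = _ := by
            apply sum_congr rfl; intro x _
            apply sum_congr rfl; intro z _
            rw [mul_sum]
            apply sum_congr rfl; intro h _
            rw [mul_sum]
    have e2 : (H : ℝ) ^ 2 * m * c ^ 2 = ∑ x ∈ DD D, ∑ z ∈ DD D,
        (l x.1 * l x.2) * (l z.1 * l z.2) *
          ((H : ℝ) ^ 2 * m / ((Nat.lcm x.1 x.2 : ℝ) * (Nat.lcm z.1 z.2 : ℝ))) := by
      rw [hc]; unfold mv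
      rw [sq (∑ x ∈ DD D, l x.1 * l x.2 / (Nat.lcm x.1 x.2 : ℝ)), sum_mul_sum, mul_sum]
      apply sum_congr rfl; intro x hx
      rw [mul_sum]
      apply sum_congr rfl; intro z hz
      have p1 : ((Nat.lcm x.1 x.2 : ℕ) : ℝ) ≠ 0 := by exact_mod_cast (DD_pos hx).ne'
      have p2 : ((Nat.lcm z.1 z.2 : ℕ) : ℝ) ≠ 0 := by exact_mod_cast (DD_pos hz).ne'
      field_simp
    rw [e1, e2, ← sum_sub_distrib]
    refine (abs_sum_le_sum_abs _ _).trans ?_
    have e3 : ∀ x ∈ DD D, |(∑ z ∈ DD D, (l x.1 * l x.2) * (l z.1 * l z.2) *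
        ∑ h ∈ Ioc 0 H, ∑ k ∈ Ioc 0 H,
        (((Ioc 0 m).filter (fun n => Nat.lcm x.1 x.2 ∣ n + (u + h * m) ∧ Nat.lcm z.1 z.2 ∣ n + (u + k * m))).card : ℝ)) -
        ∑ z ∈ DD D, (l x.1 * l x.2) * (l z.1 * l z.2) *
          ((H : ℝ) ^ 2 * m / ((Nat.lcm x.1 x.2 : ℝ) * (Nat.lcm z.1 z.2 : ℝ)))| ≤
        ∑ z ∈ DD D, (2 * (H : ℝ) + m * H / (Nat.lcm (Nat.lcm x.1 x.2) (Nat.lcm z.1 z.2) : ℝ)) := by
      intro x hx
      rw [← sum_sub_distrib]
      refine (abs_sum_le_sum_abs _ _).trans (sum_le_sum fun z hz => ?_)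
      rw [← mul_sub, abs_mul]
      by_cases hc1 : (Nat.lcm x.1 x.2).Coprime m
      swap
      · have hz0 : l x.1 * l x.2 = 0 := by
          by_cases g1 : x.1.Coprime m
          · by_cases g2 : x.2.Coprime m
            · exact absurd (Nat.Coprime.coprime_dvd_left (Nat.lcm_dvd_mul x.1 x.2) (Nat.Coprime.mul_left g1 g2)) hc1
            · rw [hlm _ g2, mul_zero]
          · rw [hlm _ g1, zero_mul]
        rw [hz0, zero_mul, abs_zero, zero_mul]
        positivity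
      have h1 := corrM' H (Nat.lcm x.1 x.2) (Nat.lcm z.1 z.2) m u (DD_pos hx) (DD_pos hz) hc1
      have h2 : |(l x.1 * l x.2) * (l z.1 * l z.2)| ≤ 1 := by
        rw [abs_mul]
        exact mul_le_one₀ (hll x) (abs_nonneg _) (hll z)
      calc _ ≤ 1 * (2 * (H : ℝ) + m * H / (Nat.lcm (Nat.lcm x.1 x.2) (Nat.lcm z.1 z.2) : ℝ)) :=
            mul_le_mul h2 h1 (abs_nonneg _) (by norm_num)
        _ = _ := one_mul _
    refine (sum_le_sum e3).trans (le_of_eq ?_)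
    simp_rw [sum_add_distrib]
    unfold QS
    rw [mul_sum]
    congr 1
    · simp_rw [sum_const, nsmul_eq_mul]
      unfold DD
      rw [card_product, Nat.card_Icc]
      push_cast; ring
    · apply sum_congr rfl; intro x _
      rw [mul_sum]
      apply sum_congr rfl; intro z _
      ring
  -- conclusion
  set s1 := ∑ n ∈ Ioc 0 m, VM l D H m u n with hs1
  set s2 := ∑ n ∈ Ioc 0 m, VM l D H m u n ^ 2 with hs2
  have e : ∑ n ∈ Ioc 0 m, (VM l D H m u n - c) ^ 2 = s2 - 2 * c * s1 + m * c ^ 2 := by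
    have : ∀ n ∈ Ioc 0 m, (VM l D H m u n - c) ^ 2 = VM l D H m u n ^ 2 - 2 * c * VM l D H m u n + c ^ 2 := by
      intro n _; ring
    rw [sum_congr rfl this, sum_add_distrib, sum_sub_distrib, ← mul_sum, sum_const, nsmul_eq_mul,
      Nat.card_Ioc, Nat.sub_zero]
  rw [e]
  have T1 : |s1 - m * c| ≤ (D : ℝ) ^ 2 / H := by
    have h1 : |(H : ℝ) * s1 - H * m * c| = H * |s1 - m * c| := by
      rw [← abs_of_pos hH0, ← abs_mul, abs_of_pos hH0]; congr 1; ring
    rw [h1] at S1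
    rw [le_div_iff₀ hH0]
    linarith
  have T2 : |s2 - m * c ^ 2| ≤ 2 * (D : ℝ) ^ 4 / H + m / H * QS D := by
    have hH2 : (0 : ℝ) < (H : ℝ) ^ 2 := by positivity
    have h1 : |(H : ℝ) ^ 2 * s2 - (H : ℝ) ^ 2 * m * c ^ 2| = (H : ℝ) ^ 2 * |s2 - m * c ^ 2| := by
      rw [← abs_of_pos hH2, ← abs_mul, abs_of_pos hH2]; congr 1; ring
    rw [h1] at S2
    have h2 : (H : ℝ) ^ 2 * |s2 - m * c ^ 2| ≤ (H : ℝ) ^ 2 * (2 * (D : ℝ) ^ 4 / H + m / H * QS D) := by
      refine S2.trans (le_of_eq ?_)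
      field_simp
    exact le_of_mul_le_mul_left h2 hH2
  have hQ := QS_le D hD
  have hXH : 0 ≤ (m : ℝ) / H := by positivity
  have hQ2 := mul_le_mul_of_nonneg_left hQ hXH
  have hD24 : (D : ℝ) ^ 2 / H ≤ (D : ℝ) ^ 4 / H :=
    div_le_div_of_nonneg_right (pow_le_pow_right₀ hD1 (by norm_num)) hH0.le
  have t1 := (abs_le.1 T1).1
  have t2 := (abs_le.1 T2).2
  have hD20 : 0 ≤ (D : ℝ) ^ 2 / H := by positivity
  have t3 : 2 * c * (m * c - s1) ≤ 2 * ((D : ℝ) ^ 2 / H) := by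
    have : m * c - s1 ≤ (D : ℝ) ^ 2 / H := by linarith
    calc 2 * c * (m * c - s1) ≤ 2 * c * ((D : ℝ) ^ 2 / H) := mul_le_mul_of_nonneg_left this (by linarith)
      _ ≤ 2 * 1 * ((D : ℝ) ^ 2 / H) := by gcongr
      _ = _ := by ring
  have e9 : 2 * (D : ℝ) ^ 4 / H = 2 * ((D : ℝ) ^ 4 / H) := by ring
  have e10 : 4 * (D : ℝ) ^ 4 / H = 4 * ((D : ℝ) ^ 4 / H) := by ring
  rw [e9] at t2
  rw [e10]
  nlinarith

end Pool.Agent.TH847.BT
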