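import Pool.Agent.TH847.BT.One
import Pool.Agent.TH847.BT.Var2

/-! Primes in almost all classes of a modulus, one interval, level of the length of the interval. -/

set_option autoImplicit false

namespace Pool.Agent.TH847.BT
open Finset Filter Pool.Agent.W301.SS Pool.Agent.TH847.LM

theorem one' (ε : ℝ) (hε : 0 < ε) (hε1 : ε ≤ 1) : ∀ᶠ k : ℕ in atTop, ∀ W : ℝ, 2 ≤ W →
    W ≤ (k : ℝ) ^ (ε / 200) → ∀ x y : ℝ, k * (W * Real.log k) ^ 20 ≤ y → y ≤ (k : ℝ) ^ 3 → y ≤ x →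
    (((range k).filter (fun a => (4 + ε) * y / (Nat.totient k * Real.log y) <
      ((PS x y k a).ncard : ℝ))).card : ℝ) ≤ k / W := by
  obtain ⟨δ, hδ⟩ : ∃ δ : ℝ, δ = ε / 200 := ⟨_, rfl⟩
  have hδ0 : 0 < δ := by rw [hδ]; positivity
  have hδ1 : δ ≤ 1 / 200 := by rw [hδ]; linarith
  rw [← hδ]
  filter_upwards [phi_ev (1 / 8) (by norm_num), ev_L (2 ^ 22 / ε + 1 / δ),
    ev_log 2 (2 ^ 13 / ε ^ 2) (3 * δ) (by positivity), ev_log 0 6 (1 / 4 - δ) (by linarith),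
    eventually_ge_atTop 3] with k hphi hL1 hlog2 hP6 hk3 W hW hWk x y hy hy3 hyx
  have hk0 : 0 < k := by omega
  have hkr : (3 : ℝ) ≤ k := by exact_mod_cast hk3
  have hkr0 : (0 : ℝ) < k := by linarith
  have hkr1 : (1 : ℝ) ≤ k := by linarith
  have hφ0 : 0 < Nat.totient k := Nat.totient_pos.2 hk0
  have hφr : (0 : ℝ) < Nat.totient k := by exact_mod_cast hφ0
  have hφk : (Nat.totient k : ℝ) ≤ k := by exact_mod_cast Nat.totient_le k
  obtain ⟨L, hL⟩ : ∃ L : ℝ, L = Real.log k := ⟨_, rfl⟩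
  rw [← hL] at hphi hL1 hlog2 hy
  have hε12 : (2 : ℝ) ^ 22 ≤ 2 ^ 22 / ε := by
    rw [le_div_iff₀ hε]; exact mul_le_of_le_one_right (by norm_num) hε1
  have h1δ : 0 < 1 / δ := by positivity
  have hLε : 2 ^ 22 / ε ≤ L := by linarith
  have hLδ : 1 / δ ≤ L := by
    have : 0 < 2 ^ 22 / ε := by positivity
    linarith
  have hL4 : (2 : ℝ) ^ 22 ≤ L := hε12.trans hLε
  have hL1' : 1 ≤ L := by linarith
  have hL0 : 0 < L := by linarith
  have hW0 : 0 < W := by linarith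
  have hW1 : 1 ≤ W := by linarith
  have hWL1 : 1 ≤ W * L := m2 hW1 hL1'
  have hky : (k : ℝ) ≤ y := by
    have : (1 : ℝ) ≤ (W * L) ^ 20 := one_le_pow₀ hWL1
    exact (m3 this hkr0.le).trans hy
  have hy0 : 0 < y := by linarith
  have hy1 : 1 ≤ y := by linarith
  obtain ⟨T, hT⟩ : ∃ T : ℝ, T = Real.log y := ⟨_, rfl⟩
  rw [← hT]
  have hLT : L ≤ T := by rw [hL, hT]; exact Real.log_le_log hkr0 hky
  have hT3 : T ≤ 3 * L := by
    have := Real.log_le_log hy0 hy3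
    rw [Real.log_pow, ← hL, ← hT] at this
    exact_mod_cast this
  have hT0 : 0 < T := by linarith
  have hT1 : 1 ≤ T := by linarith
  -- D
  obtain ⟨P, hP⟩ : ∃ P : ℝ, P = y ^ (1 / 4 - δ) := ⟨_, rfl⟩
  rw [pow_zero, mul_one] at hP6
  have hP6 : 6 ≤ P := by
    rw [hP]
    exact hP6.trans (Real.rpow_le_rpow hkr0.le hky (by linarith))
  obtain ⟨D, hD⟩ : ∃ D : ℕ, D = ⌊P⌋₊ := ⟨_, rfl⟩
  have hDP : (D : ℝ) ≤ P := by rw [hD]; exact Nat.floor_le (by linarith)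
  have hDP2 : P / 2 ≤ D := by
    have := Nat.lt_floor_add_one P
    rw [← hD] at this
    linarith
  have hD3r : (3 : ℝ) ≤ D := by linarith
  have hD3 : 3 ≤ D := by exact_mod_cast hD3r
  have hPk : P ≤ y ^ (1 / 4 : ℝ) := by
    rw [hP]; exact Real.rpow_le_rpow_of_exponent_le hy1 (by linarith)
  have hDk4 : (D : ℝ) ≤ y ^ (1 / 4 : ℝ) := hDP.trans hPk
  have hDkr : (D : ℝ) ≤ k := by
    refine hDk4.trans ?_
    calc y ^ (1 / 4 : ℝ) ≤ ((k : ℝ) ^ 3) ^ (1 / 4 : ℝ) := Real.rpow_le_rpow hy0.le hy3 (by norm_num)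
      _ = (k : ℝ) ^ (3 / 4 : ℝ) := by
          rw [← Real.rpow_natCast, ← Real.rpow_mul hkr0.le]; norm_num
      _ ≤ (k : ℝ) ^ (1 : ℝ) := Real.rpow_le_rpow_of_exponent_le hkr1 (by norm_num)
      _ = k := Real.rpow_one _
  have hDk : D ≤ k := by exact_mod_cast hDkr
  have hD0 : (0 : ℝ) < D := by linarith
  have hlD1 : Real.log D ≤ T / 4 := by
    have := Real.log_le_log hD0 hDk4
    rw [Real.log_rpow hy0, ← hT] at this
    linarith
  have hlD2 : (1 / 4 - 2 * δ) * T ≤ Real.log D := by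
    have h1 := Real.log_le_log (by linarith : (0 : ℝ) < P / 2) hDP2
    have h2 : Real.log (P / 2) = (1 / 4 - δ) * T - Real.log 2 := by
      rw [Real.log_div (by linarith) (by norm_num), hP, Real.log_rpow hy0, ← hT]
    have h3 := Real.log_two_lt_d9
    have h4 : 1 ≤ δ * T := by
      rw [div_le_iff₀ hδ0] at hLδ
      calc 1 ≤ L * δ := hLδ
        _ ≤ T * δ := mul_le_mul_of_nonneg_right hLT hδ0.le
        _ = δ * T := mul_comm _ _
    have h5 : (1 / 4 - 2 * δ) * T = (1 / 4 - δ) * T - δ * T := by ring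
    linarith
  have hlD0 : 0 < Real.log D := by
    have : 0 < (1 / 4 - 2 * δ) * T := mul_pos (by linarith) hT0
    linarith
  -- the weights
  obtain ⟨l, l1, l2, _, _, l5, l6, l7⟩ := Pool.Agent.H376R2.TT.sel_weights_q k (by omega) D (by omega)
  have emv : mv l D = ∑ d ∈ Icc 1 D, ∑ e ∈ Icc 1 D, l d * l e / (Nat.lcm d e : ℝ) := by
    unfold mv DD
    rw [sum_product]
  rw [← emv] at l6 l7
  have hmv1 : mv l D ≤ 1 := by
    refine l7.trans ?_
    rw [div_le_one hlD0]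
    have h1 : (1 / 8 : ℝ) * T ≤ (1 / 4 - 2 * δ) * T := mul_le_mul_of_nonneg_right (by linarith) hT0.le
    have h2 : (1 / 8 : ℝ) * L ≤ (1 / 8 : ℝ) * T := by linarith
    linarith
  -- J
  obtain ⟨z, hz⟩ : ∃ z : ℝ, z = y / k := ⟨_, rfl⟩
  have hzW : (W * L) ^ 20 ≤ z := by
    rw [hz, le_div_iff₀ hkr0]; linarith
  have hLz : L ^ 2 ≤ z := by
    calc L ^ 2 ≤ (W * L) ^ 2 := pow_le_pow_left₀ hL0.le (m1 hW1 hL0.le) 2
      _ ≤ (W * L) ^ 20 := pow_le_pow_right₀ hWL1 (by norm_num)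
      _ ≤ z := hzW
  have h40 : 40 / ε ≤ z := by
    calc 40 / ε ≤ 2 ^ 22 / ε := div_le_div_of_nonneg_right (by norm_num) hε.le
      _ ≤ L := hLε
      _ ≤ L ^ 2 := by rw [sq]; exact m1 hL1' hL0.le
      _ ≤ z := hLz
  have hz0 : 0 < z := lt_of_lt_of_le (by positivity) h40
  obtain ⟨J, hJ⟩ : ∃ J : ℕ, J = ⌈(y + 1) / k⌉₊ := ⟨_, rfl⟩
  have hJ1 : (y + 1) / k ≤ J := by rw [hJ]; exact Nat.le_ceil _
  have hJ2 : (J : ℝ) < (y + 1) / k + 1 := by rw [hJ]; exact Nat.ceil_lt_add_one (by positivity)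
  have hJy : y + 1 ≤ J * k := by rwa [div_le_iff₀ hkr0] at hJ1
  have hzJ : z ≤ J := by
    refine le_trans ?_ hJ1
    rw [hz]
    exact div_le_div_of_nonneg_right (by linarith) hkr0.le
  have hJr0 : (0 : ℝ) < J := lt_of_lt_of_le hz0 hzJ
  have hJnat : 1 ≤ J := by exact_mod_cast hJr0
  have hJ20 : (J : ℝ) ≤ (1 + ε / 20) * (y / k) := by
    rw [← hz]
    have h1 : (y + 1) / k = z + 1 / k := by rw [hz]; ring
    have h2 : 1 / (k : ℝ) ≤ 1 := by rw [div_le_one hkr0]; exact hkr1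
    have h3 : 2 ≤ ε / 20 * z := by
      rw [div_le_iff₀ hε] at h40
      linarith
    linarith
  -- the variance
  have hvar : ∀ u : ℕ, ∑ n ∈ Ioc 0 k, (VM l D J k u n - mv l D) ^ 2 ≤
      4 * (D : ℝ) ^ 4 / J + k / J * (1 + 4 * Real.log D) ^ 16 := fun u =>
    varianceM' l l2 D (by omega) l6 hmv1 J k u hJnat l5
  obtain ⟨V, hV⟩ : ∃ V : ℝ, V = 4 * (D : ℝ) ^ 4 / J + k / J * (1 + 4 * Real.log D) ^ 16 := ⟨_, rfl⟩
  rw [← hV] at hvar
  have hmvb : mv l D ≤ (4 + ε / 3) * ((k : ℝ) / Nat.totient k / T) := by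
    refine l7.trans ?_
    have h1 : T ≤ (4 + ε / 3) * Real.log D := by
      have h2 : (1 : ℝ) ≤ (4 + ε / 3) * (1 / 4 - 2 * δ) := by rw [hδ]; exact m4 hε hε1
      calc T = 1 * T := (one_mul T).symm
        _ ≤ ((4 + ε / 3) * (1 / 4 - 2 * δ)) * T := mul_le_mul_of_nonneg_right h2 hT0.le
        _ = (4 + ε / 3) * ((1 / 4 - 2 * δ) * T) := by ring
        _ ≤ _ := mul_le_mul_of_nonneg_left hlD2 (by linarith)
    have hr0 : 0 ≤ (k : ℝ) / Nat.totient k := by positivity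
    rw [div_le_iff₀ hlD0]
    calc (k : ℝ) / Nat.totient k = (k : ℝ) / Nat.totient k * (T / T) := by rw [div_self hT0.ne', mul_one]
      _ ≤ (k : ℝ) / Nat.totient k * (((4 + ε / 3) * Real.log D) / T) := by
          apply mul_le_mul_of_nonneg_left _ hr0
          exact div_le_div_of_nonneg_right h1 hT0.le
      _ = _ := by ring
  have hyL : 4 / ε * T ≤ y / k := by
    rw [← hz]
    have h1 : 12 / ε ≤ L := le_trans (div_le_div_of_nonneg_right (by norm_num) hε.le) hLε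
    calc 4 / ε * T ≤ 4 / ε * (3 * L) := mul_le_mul_of_nonneg_left hT3 (by positivity)
      _ = 12 / ε * L := by ring
      _ ≤ L * L := mul_le_mul_of_nonneg_right h1 hL0.le
      _ = L ^ 2 := by ring
      _ ≤ z := hLz
  have hM := num1 hε hε1 hkr0 hφr hφk hT1 hJ20 hJr0.le hyL hmvb
  have hbad := bad_le l1 hk0 hJnat (by omega : 1 ≤ D) hDk hyx hJy (t := ε / (8 * T)) (by positivity) hvar hM
  refine hbad.trans ?_
  -- the size of the exceptional set
  have hD4 : (D : ℝ) ^ 4 ≤ y ^ (1 - 4 * δ) := by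
    calc (D : ℝ) ^ 4 ≤ P ^ 4 := pow_le_pow_left₀ hD0.le hDP 4
      _ = _ := by
        rw [hP, ← Real.rpow_natCast, ← Real.rpow_mul hy0.le]
        congr 1; push_cast; ring
  have hA : 4 * (D : ℝ) ^ 4 / J / (ε / (8 * T)) ^ 2 ≤ k / (2 * W) := by
    rw [le_div_iff₀ (by positivity)]
    have e : 4 * (D : ℝ) ^ 4 / J / (ε / (8 * T)) ^ 2 * (2 * W) = (512 / ε ^ 2 * T ^ 2) * (D : ℝ) ^ 4 * W / J := by
      field_simp; ring
    rw [e, div_le_iff₀ hJr0]
    have hT2 : 512 / ε ^ 2 * T ^ 2 ≤ y ^ (3 * δ) := by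
      calc 512 / ε ^ 2 * T ^ 2 ≤ 512 / ε ^ 2 * (3 * L) ^ 2 := by gcongr
        _ = 4608 / ε ^ 2 * L ^ 2 := by ring
        _ ≤ 2 ^ 13 / ε ^ 2 * L ^ 2 := by gcongr; norm_num
        _ ≤ (k : ℝ) ^ (3 * δ) := hlog2
        _ ≤ y ^ (3 * δ) := Real.rpow_le_rpow hkr0.le hky (by positivity)
    have hWy : W ≤ y ^ δ := hWk.trans (Real.rpow_le_rpow hkr0.le hky hδ0.le)
    calc (512 / ε ^ 2 * T ^ 2) * (D : ℝ) ^ 4 * W ≤ y ^ (3 * δ) * y ^ (1 - 4 * δ) * y ^ δ := by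
          gcongr
      _ = y := by
          rw [← Real.rpow_add hy0, ← Real.rpow_add hy0]
          have : 3 * δ + (1 - 4 * δ) + δ = 1 := by ring
          rw [this, Real.rpow_one]
      _ ≤ k * J := by linarith
  have hB : k / J * (1 + 4 * Real.log D) ^ 16 / (ε / (8 * T)) ^ 2 ≤ k / (2 * W) := by
    rw [le_div_iff₀ (by positivity)]
    have h1 : (1 + 4 * Real.log D) ^ 16 ≤ (4 * L) ^ 16 := by
      apply pow_le_pow_left₀ (by linarith)
      linarith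
    have h0 : (ε / (12 * (2 * L))) ^ 2 ≤ (ε / (8 * T)) ^ 2 := by
      apply pow_le_pow_left₀ (by positivity)
      apply div_le_div_of_nonneg_left hε.le (by positivity)
      linarith
    have h2 : 2 ^ 43 / ε ^ 2 * (W * L ^ 18) ≤ J := by
      have h3 : 2 ^ 43 / ε ^ 2 ≤ L ^ 2 := by
        have h4 := pow_le_pow_left₀ (by positivity : (0 : ℝ) ≤ 2 ^ 22 / ε) hLε 2
        have h5 : (2 : ℝ) ^ 43 / ε ^ 2 ≤ (2 ^ 22 / ε) ^ 2 := by
          rw [div_pow]
          apply div_le_div_of_nonneg_right (by norm_num) (by positivity)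
        exact h5.trans h4
      calc 2 ^ 43 / ε ^ 2 * (W * L ^ 18) ≤ L ^ 2 * (W * L ^ 18) :=
            mul_le_mul_of_nonneg_right h3 (by positivity)
        _ = W ^ 1 * L ^ 20 := by ring
        _ ≤ W ^ 20 * L ^ 20 := by
            apply mul_le_mul_of_nonneg_right _ (by positivity)
            exact pow_le_pow_right₀ hW1 (by norm_num)
        _ = (W * L) ^ 20 := by ring
        _ ≤ z := hzW
        _ ≤ J := hzJ
    calc k / J * (1 + 4 * Real.log D) ^ 16 / (ε / (8 * T)) ^ 2 * (2 * W) ≤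
          k / J * (4 * L) ^ 16 / (ε / (12 * (2 * L))) ^ 2 * (2 * W) := by gcongr
      _ = k * ((2 ^ 32 * 576 * 2 / ε ^ 2 * (W * L ^ 18)) / J) := by field_simp; ring
      _ ≤ k * ((2 ^ 43 / ε ^ 2 * (W * L ^ 18)) / J) := by gcongr; norm_num
      _ ≤ k * 1 := by
          apply mul_le_mul_of_nonneg_left _ hkr0.le
          rw [div_le_one hJr0]; exact h2
      _ = k := mul_one _
  have e : (k : ℝ) / W = k / (2 * W) + k / (2 * W) := by field_simp; norm_num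
  rw [hV, add_div, e]
  exact add_le_add hA hB

end Pool.Agent.TH847.BT
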