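import Pool.Agent.TH847.BT.Uni

/-! Chebyshev's functions of one residue class. -/

set_option autoImplicit false

namespace Pool.Agent.TH847.BT
open Finset Filter Pool.Agent.W301.SS Pool.Agent.TH847.LM ArithmeticFunction

/-- `ψ(x; q, a)` -/
noncomputable def psiC (x : ℝ) (q a : ℕ) : ℝ :=
  ∑ n ∈ (Ioc 0 ⌊x⌋₊).filter (fun n => n ≡ a [MOD q]), vonMangoldt n

/-- `θ(x; q, a)` -/
noncomputable def thC (x : ℝ) (q a : ℕ) : ℝ :=
  ∑ p ∈ (Ioc 0 ⌊x⌋₊).filter (fun n => n.Prime ∧ n ≡ a [MOD q]), Real.log p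

lemma thC_nonneg (x : ℝ) (q a : ℕ) : 0 ≤ thC x q a :=
  sum_nonneg fun p _ => Real.log_natCast_nonneg p

lemma thC_eq (x : ℝ) (q a : ℕ) : thC x q a =
    ∑ p ∈ (Ioc 0 ⌊x⌋₊).filter (fun n => n.Prime ∧ n ≡ a [MOD q]), vonMangoldt p := by
  apply sum_congr rfl
  intro p hp
  rw [mem_filter] at hp
  exact (vonMangoldt_apply_prime hp.2.1).symm

lemma thC_le_psiC (x : ℝ) (q a : ℕ) : thC x q a ≤ psiC x q a := by
  rw [thC_eq]
  apply sum_le_sum_of_subset_of_nonneg
  · intro n hn
    rw [mem_filter] at hn ⊢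
    exact ⟨hn.1, hn.2.2⟩
  · intro _ _ _
    exact vonMangoldt_nonneg

lemma psiC_eq_thC {x : ℝ} {q a : ℕ} (h : ∀ n ∈ Ioc 0 ⌊x⌋₊, n ≡ a [MOD q] → vonMangoldt n ≠ 0 → n.Prime) :
    psiC x q a = thC x q a := by
  rw [thC_eq]
  symm
  apply sum_subset
  · intro n hn
    rw [mem_filter] at hn ⊢
    exact ⟨hn.1, hn.2.2⟩
  · intro n hn hn2
    rw [mem_filter] at hn
    by_contra hc
    exact hn2 (mem_filter.2 ⟨hn.1, h n hn.1 hn.2 hc, hn.2⟩)

lemma thC_le_card {x : ℝ} (hx : 1 ≤ x) (q a : ℕ) : thC x q a ≤ (PS x x q a).ncard * Real.log x := by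
  have h1 : thC x q a ≤ ∑ p ∈ (Ioc 0 ⌊x⌋₊).filter (fun n => n.Prime ∧ n ≡ a [MOD q]), Real.log x := by
    apply sum_le_sum
    intro p hp
    rw [mem_filter, mem_Ioc] at hp
    have h2 : (p : ℝ) ≤ x := (Nat.le_floor_iff (by linarith)).1 hp.1.2
    exact Real.log_le_log (by exact_mod_cast hp.1.1) h2
  refine h1.trans (le_of_eq ?_)
  rw [sum_const, nsmul_eq_mul]
  congr 1
  rw [← Set.ncard_coe_finset]
  congr 2
  ext p
  rw [Finset.mem_coe, mem_filter, mem_Ioc]
  unfold PS
  simp only [Set.mem_ofPred_eq, sub_self]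
  constructor
  · rintro ⟨⟨h2, h3⟩, h4, h5⟩
    exact ⟨h4, h5, by exact_mod_cast h2, (Nat.le_floor_iff (by linarith)).1 h3⟩
  · rintro ⟨h4, h5, h2, h3⟩
    exact ⟨⟨by exact_mod_cast h2, Nat.le_floor h3⟩, h4, h5⟩

/-- the sum over the reduced classes -/
lemma sum_thC {q : ℕ} (hq : 2 ≤ q) (x : ℝ) :
    Chebyshev.theta x - Real.log q ≤ ∑ a ∈ (range q).filter (fun a => a.Coprime q), thC x q a := by
  classical
  have hq0 : 0 < q := by omega
  have h1 : ∑ a ∈ (range q).filter (fun a => a.Coprime q), thC x q a =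
      ∑ p ∈ (Ioc 0 ⌊x⌋₊).filter (fun n => n.Prime),
        ∑ a ∈ (range q).filter (fun a => a.Coprime q), (if p ≡ a [MOD q] then Real.log p else 0) := by
    rw [sum_comm]
    apply sum_congr rfl
    intro a _
    unfold thC
    rw [← sum_filter, filter_filter]
  have h2 : ∀ p ∈ (Ioc 0 ⌊x⌋₊).filter (fun n => n.Prime),
      (if p ∣ q then 0 else Real.log p) ≤
        ∑ a ∈ (range q).filter (fun a => a.Coprime q), (if p ≡ a [MOD q] then Real.log p else 0) := by
    intro p hp
    rw [mem_filter] at hp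
    split_ifs with hd
    · apply sum_nonneg
      intro a _
      split_ifs
      · exact Real.log_natCast_nonneg p
      · exact le_rfl
    · have hc : p.Coprime q := (Nat.Prime.coprime_iff_not_dvd hp.2).2 hd
      have hmem : p % q ∈ (range q).filter (fun a => a.Coprime q) := by
        rw [mem_filter, mem_range]
        refine ⟨Nat.mod_lt _ hq0, ?_⟩
        unfold Nat.Coprime at hc ⊢
        rw [← Nat.gcd_rec, Nat.gcd_comm]
        exact hc
      have h3 : (if p ≡ p % q [MOD q] then Real.log p else 0) = Real.log p := by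
        rw [if_pos (Nat.mod_modEq p q).symm]
      refine h3.symm.le.trans ?_
      apply single_le_sum (f := fun a => if p ≡ a [MOD q] then Real.log (p : ℝ) else 0) _ hmem
      intro a _
      split_ifs
      · exact Real.log_natCast_nonneg p
      · exact le_rfl
  rw [h1]
  refine le_trans ?_ (sum_le_sum h2)
  have h4 : Chebyshev.theta x = ∑ p ∈ (Ioc 0 ⌊x⌋₊).filter (fun n => n.Prime), (if p ∣ q then 0 else Real.log p) +
      ∑ p ∈ (Ioc 0 ⌊x⌋₊).filter (fun n => n.Prime), (if p ∣ q then Real.log p else 0) := by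
    unfold Chebyshev.theta
    rw [← sum_add_distrib]
    apply sum_congr rfl
    intro p _
    split_ifs <;> ring
  have h5 : ∑ p ∈ (Ioc 0 ⌊x⌋₊).filter (fun n => n.Prime), (if p ∣ q then Real.log p else 0) ≤ Real.log q := by
    rw [← sum_filter]
    calc ∑ p ∈ ((Ioc 0 ⌊x⌋₊).filter (fun n => n.Prime)).filter (fun p => p ∣ q), Real.log p ≤
          ∑ p ∈ q.primeFactors, Real.log p := by
          apply sum_le_sum_of_subset_of_nonneg
          · intro p hp
            rw [mem_filter, mem_filter] at hp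
            rw [Nat.mem_primeFactors]
            exact ⟨hp.1.2, hp.2, by omega⟩
          · intro p _ _
            exact Real.log_natCast_nonneg p
      _ = Real.log (∏ p ∈ q.primeFactors, (p : ℝ)) := by
          rw [Real.log_prod]
          intro p hp
          have := (Nat.prime_of_mem_primeFactors hp).pos
          positivity
      _ ≤ Real.log q := by
          have h6 : ∏ p ∈ q.primeFactors, p ≤ q := Nat.le_of_dvd hq0 (Nat.prod_primeFactors_dvd q)
          have h7 : (∏ p ∈ q.primeFactors, (p : ℝ)) ≤ q := by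
            have h8 : ((∏ p ∈ q.primeFactors, p : ℕ) : ℝ) ≤ q := Nat.cast_le.2 h6
            rwa [Nat.cast_prod] at h8
          apply Real.log_le_log _ h7
          apply prod_pos
          intro p hp
          have := (Nat.prime_of_mem_primeFactors hp).pos
          positivity
  linarith

/-- the prime powers up to `X` -/
noncomputable def Q2 (X : ℝ) : Finset ℕ := by
  classical
  exact (Ioc 0 ⌊X⌋₊).filter (fun n => vonMangoldt n ≠ 0 ∧ ¬ n.Prime)

lemma Q2_card {X : ℝ} (hX : 1 ≤ X) : ((Q2 X).card : ℝ) ≤ 4 * √X * Real.log X := by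
  classical
  have h1 : ∑ n ∈ Q2 X, vonMangoldt n ≤ Chebyshev.psi X - Chebyshev.theta X := by
    have h2 : Chebyshev.theta X = ∑ p ∈ (Ioc 0 ⌊X⌋₊).filter (fun n => n.Prime), vonMangoldt p := by
      unfold Chebyshev.theta
      apply sum_congr rfl
      intro p hp
      rw [mem_filter] at hp
      exact (vonMangoldt_apply_prime hp.2).symm
    have h3 : Chebyshev.psi X = ∑ n ∈ (Ioc 0 ⌊X⌋₊).filter (fun n => n.Prime), vonMangoldt n +
        ∑ n ∈ (Ioc 0 ⌊X⌋₊).filter (fun n => ¬ n.Prime), vonMangoldt n := by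
      unfold Chebyshev.psi
      exact (sum_filter_add_sum_filter_not _ _ _).symm
    have h4 : ∑ n ∈ Q2 X, vonMangoldt n ≤ ∑ n ∈ (Ioc 0 ⌊X⌋₊).filter (fun n => ¬ n.Prime), vonMangoldt n := by
      apply sum_le_sum_of_subset_of_nonneg
      · intro n hn
        unfold Q2 at hn
        rw [mem_filter] at hn ⊢
        exact ⟨hn.1, hn.2.2⟩
      · intro _ _ _
        exact vonMangoldt_nonneg
    linarith
  have h5 : ((Q2 X).card : ℝ) * (1 / 2) ≤ ∑ n ∈ Q2 X, vonMangoldt n := by
    rw [← nsmul_eq_mul, ← sum_const]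
    apply sum_le_sum
    intro n hn
    unfold Q2 at hn
    rw [mem_filter] at hn
    have h6 := hn.2.1
    rw [Ne, vonMangoldt_eq_zero_iff, not_not] at h6
    rw [vonMangoldt_apply, if_pos h6]
    have hmf : 2 ≤ n.minFac := (Nat.minFac_prime h6.ne_one).two_le
    have h7 : (2 : ℝ) ≤ n.minFac := by exact_mod_cast hmf
    have h8 := Real.log_le_log (by norm_num) h7
    have := Real.log_two_gt_d9
    linarith
  have h9 := (le_abs_self _).trans (Chebyshev.abs_psi_sub_theta_le_sqrt_mul_log hX)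
  linarith

end Pool.Agent.TH847.BT
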